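import Pool.Agent.Helper28.QB.Params

/-!
# The Hilbert function as a difference of dimensions
-/

namespace Helper28.QB

variable {k A : Type*} [Field k] [CommRing A] [Algebra k A]

section

variable (𝒜 : ℕ → Submodule k A)

theorem hilb_eq (J : Ideal A) (n : ℕ) [Module.Finite k (𝒜 n)] :
    (hilb 𝒜 J n : ℤ) = (Module.finrank k (𝒜 n) : ℤ) -
      Module.finrank k (J.restrictScalars k ⊓ 𝒜 n : Submodule k A) := by
  have e1 := Submodule.finrank_quotient_add_finrank ((J.restrictScalars k).comap (𝒜 n).subtype)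
  have e2 : Module.finrank k (J.restrictScalars k ⊓ 𝒜 n : Submodule k A) =
      Module.finrank k ((J.restrictScalars k).comap (𝒜 n).subtype) := by
    rw [← Submodule.finrank_map_subtype_eq, Submodule.map_comap_subtype, inf_comm]
  rw [e2, ← e1, hilb]
  push_cast
  ring

theorem hs_eq (J : Ideal A) (hfd : ∀ n, Module.Finite k (𝒜 n)) :
    hs 𝒜 J = PowerSeries.mk fun n => ((Module.finrank k (𝒜 n) : ℤ) -
      Module.finrank k (J.restrictScalars k ⊓ 𝒜 n : Submodule k A)) := by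
  ext n
  have := hfd n
  rw [hs, PowerSeries.coeff_mk, PowerSeries.coeff_mk, hilb_eq]

end

open PowerSeries

/-- `exists_params` with the Hilbert function written as a difference of dimensions. -/
theorem exists_params' (𝒜 : ℕ → Submodule k A) [GradedAlgebra 𝒜] [IsNoetherianRing A]
    (h0 : ∀ a ∈ 𝒜 0, ∃ c : k, algebraMap k A c = a) (J : Ideal A) (hJ : J.IsHomogeneous 𝒜)
    (g : Polynomial ℕ) (hg : 1 ≤ g.coeff 0) (h : Polynomial ℤ) (p : ℕ)
    (hh : (PowerSeries.mk fun n => ((Module.finrank k (𝒜 n) : ℤ) -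
      Module.finrank k (J.restrictScalars k ⊓ 𝒜 n : Submodule k A))) * (1 - X) ^ p *
      ((g.map (Nat.castRingHom ℤ) : Polynomial ℤ) : ℤ⟦X⟧) = (h : ℤ⟦X⟧)) :
    ∃ (r : Fin p → A) (e : Fin p → ℕ), (∀ i, 0 < e i ∧ r i ∈ 𝒜 (e i)) ∧
      Module.Finite k (A ⧸ (J ⊔ Ideal.span (Set.range r))) := by
  refine exists_params 𝒜 h0 g hg p J hJ h ?_
  rw [hs_eq 𝒜 J (finite_piece 𝒜 h0)]
  exact hh

end Helper28.QB
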