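import Mathlib
import Pool.Agent.Helper44.QB.Fam

/-!
PROJECT QB. Leaves (N) and (M): nilpotency modulo large `K`-weight, and the minimality
contradiction.
-/

set_option autoImplicit false

open scoped TensorProduct
open Pool.Agent.Helper44.QA Pool.Agent.Helper44.QB

namespace Helper28.QB

universe u

section AGe

variable {k R : Type u} [Field k] [CommRing R] [Algebra k R] (𝒜 : ℕ → Submodule k R)

theorem piece_le_AGe {p : ℤ} {s : ℕ} (h : p ≤ (s : ℤ)) : 𝒜 s ≤ AGe 𝒜 p :=
  le_iSup_of_le s (le_iSup_of_le h le_rfl)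

theorem AGe_anti {p q : ℤ} (h : p ≤ q) : AGe 𝒜 q ≤ AGe 𝒜 p :=
  iSup_le fun _ => iSup_le fun hs => piece_le_AGe 𝒜 (h.trans hs)

variable [GradedAlgebra 𝒜]

theorem AGe_top {p : ℤ} (h : p ≤ 0) : AGe 𝒜 p = ⊤ := by
  classical
  rw [eq_top_iff]
  rintro x -
  rw [← DirectSum.sum_support_decompose 𝒜 x]
  exact Submodule.sum_mem _ fun i _ =>
    piece_le_AGe 𝒜 (h.trans (Int.natCast_nonneg i)) (SetLike.coe_mem _)

theorem AGe_mul {p q : ℤ} {x y : R} (hx : x ∈ AGe 𝒜 p) (hy : y ∈ AGe 𝒜 q) :
    x * y ∈ AGe 𝒜 (p + q) := by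
  have h1 : ∀ s : ℕ, p ≤ (s : ℤ) → ∀ a ∈ 𝒜 s, a * y ∈ AGe 𝒜 (p + q) := by
    intro s hs a ha
    have h2 : AGe 𝒜 q ≤ (AGe 𝒜 (p + q)).comap (LinearMap.mulLeft k a) := by
      refine iSup_le fun t => iSup_le fun ht c hc => ?_
      rw [Submodule.mem_comap, LinearMap.mulLeft_apply]
      refine piece_le_AGe 𝒜 (s := s + t) ?_ (SetLike.mul_mem_graded ha hc)
      push_cast
      omega
    exact h2 hy
  have h3 : AGe 𝒜 p ≤ (AGe 𝒜 (p + q)).comap (LinearMap.mulRight k y) :=
    iSup_le fun s => iSup_le fun hs a ha => h1 s hs a ha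
  exact h3 hx

theorem AGe_mul_left {p : ℤ} {x : R} (y : R) (hx : x ∈ AGe 𝒜 p) : y * x ∈ AGe 𝒜 p := by
  have := AGe_mul 𝒜 (p := 0) (x := y) (by rw [AGe_top 𝒜 le_rfl]; exact Submodule.mem_top) hx
  rwa [zero_add] at this

theorem AGe_mul_right {p : ℤ} {x : R} (y : R) (hx : x ∈ AGe 𝒜 p) : x * y ∈ AGe 𝒜 p := by
  rw [mul_comm]
  exact AGe_mul_left 𝒜 y hx

theorem one_notMem_AGe [Nontrivial R] : (1 : R) ∉ AGe 𝒜 1 := by
  classical
  intro h
  have h1 : AGe 𝒜 1 ≤ LinearMap.ker (GradedAlgebra.proj 𝒜 0) := by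
    refine iSup_le fun s => iSup_le fun hs a ha => ?_
    rw [LinearMap.mem_ker, GradedAlgebra.proj_apply, DirectSum.decompose_of_mem_ne 𝒜 ha]
    omega
  have h2 : GradedAlgebra.proj 𝒜 0 (1 : R) = 0 := h1 h
  rw [GradedAlgebra.proj_apply, DirectSum.decompose_of_mem_same 𝒜 SetLike.GradedOne.one_mem] at h2
  exact one_ne_zero h2

end AGe

variable {k R : Type u} [Field k] [CommRing R] [Algebra k R]
  {O : Type} [Fintype O] [LinearOrder O] {b : ℕ}

/-- (N) nilpotency modulo large `K`-weight -/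
theorem pow_mem_Fq (𝒜 : ℕ → Submodule k R) [GradedAlgebra 𝒜] {δ κ : O ⊕ Fin b → ℤ}
    (hκ : ∀ g, 0 ≤ κ g) {S : Set (O ⊕ Fin b)} {n : ℤ} {z : AA R O b}
    (hz : z ∈ Ft k δ S n) (h : ∀ α, co ((∅ : Finset O), α) z ∈ AGe 𝒜 1) (q : ℤ) :
    ∃ N : ℕ, z ^ N ∈ Fq 𝒜 δ κ S (N * n) q := by
  have key : ∀ N : ℕ, z ^ N ∈ Pc (Cd δ S (N * n)
      (fun m => AGe 𝒜 ((N : ℤ) - (m.1.card : ℤ)))) := by
    intro N
    induction N with
    | zero =>
      rw [pow_zero]
      have : ((0 : ℕ) : ℤ) * n = 0 := by simp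
      rw [this]
      refine one_mem ?_
      rw [AGe_top 𝒜 (by simp)]
      exact Submodule.mem_top
    | succ N ih =>
      rw [pow_succ]
      have hz' : z ∈ Pc (Cd δ S n (fun m => AGe 𝒜 ((1 : ℤ) - (m.1.card : ℤ)))) := by
        intro m
        refine mem_Cd.2 ⟨(mem_Cd.1 (hz m)).1, ?_⟩
        by_cases hm : m.1 = ∅
        · have h2 := h m.2
          rw [← hm] at h2
          rw [hm, Finset.card_empty]
          simpa using h2
        · have : 1 ≤ m.1.card := Finset.card_pos.2 (Finset.nonempty_iff_ne_empty.2 hm)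
          rw [AGe_top 𝒜 (by omega)]
          exact Submodule.mem_top
      have h3 := mul_mem (φ'' := fun m => AGe 𝒜 (((N + 1 : ℕ) : ℤ) - (m.1.card : ℤ))) (by
        intro m m' hd r hr r' hr'
        have h4 := AGe_mul 𝒜 hr hr'
        have h5 : ((madd m m').1.card : ℤ) = m.1.card + m'.1.card := by
          unfold madd
          rw [Finset.card_union_of_disjoint hd]
          push_cast
          ring
        refine AGe_anti 𝒜 ?_ h4
        rw [h5]
        push_cast
        omega) ih hz'
      have h6 : ((N + 1 : ℕ) : ℤ) * n = (N : ℤ) * n + n := by push_cast; ring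
      rw [h6]
      exact h3
  refine ⟨q.toNat + Fintype.card O, Pc_mono le_rfl (fun m _ _ => AGe_anti 𝒜 ?_) (key _)⟩
  have h1 : m.1.card ≤ Fintype.card O := m.1.card_le_univ
  have h2 : 0 ≤ lin κ m := lin_nonneg hκ m
  push_cast
  omega

omit [Fintype O] in
/-- the factorisations of a linear monomial -/
theorem madd_eq_ins {v : O ⊕ Fin b} {m m' : Mo O b} (hd : Disjoint m.1 m'.1)
    (h : madd m m' = ins v (∅, 0)) :
    (m = ins v (∅, 0) ∧ m' = (∅, 0)) ∨ (m = (∅, 0) ∧ m' = ins v (∅, 0)) := by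
  obtain ⟨S, α⟩ := m
  obtain ⟨S', α'⟩ := m'
  cases v with
  | inl i =>
    have h1 : S ∪ S' = {i} := by
      have := congrArg Prod.fst h
      simpa [madd, ins] using this
    have h2 : α + α' = 0 := by
      have := congrArg Prod.snd h
      simpa [madd, ins] using this
    have h3 : α = 0 ∧ α' = 0 := by
      constructor
      · ext j
        have := DFunLike.congr_fun h2 j
        simp only [Finsupp.add_apply, Finsupp.coe_zero, Pi.zero_apply] at this ⊢
        omega
      · ext j
        have := DFunLike.congr_fun h2 j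
        simp only [Finsupp.add_apply, Finsupp.coe_zero, Pi.zero_apply] at this ⊢
        omega
    obtain ⟨rfl, rfl⟩ := h3
    have hi : i ∈ S ∪ S' := by rw [h1]; exact Finset.mem_singleton_self i
    have hsub : ∀ j, j ∈ S ∨ j ∈ S' → j = i := fun j hj =>
      Finset.mem_singleton.1 (h1 ▸ Finset.mem_union.2 hj)
    rcases Finset.mem_union.1 hi with h4 | h4
    · left
      have h5 : S = {i} := by
        ext j
        rw [Finset.mem_singleton]
        exact ⟨fun hj => hsub j (Or.inl hj), fun hj => hj ▸ h4⟩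
      have h6 : S' = ∅ := by
        rw [Finset.eq_empty_iff_forall_notMem]
        intro j hj
        have := hsub j (Or.inr hj)
        subst this
        exact Finset.disjoint_left.1 hd h4 hj
      subst h5 h6
      exact ⟨by simp [ins], rfl⟩
    · right
      have h5 : S' = {i} := by
        ext j
        rw [Finset.mem_singleton]
        exact ⟨fun hj => hsub j (Or.inr hj), fun hj => hj ▸ h4⟩
      have h6 : S = ∅ := by
        rw [Finset.eq_empty_iff_forall_notMem]
        intro j hj
        have := hsub j (Or.inl hj)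
        subst this
        exact Finset.disjoint_left.1 hd hj h4
      subst h5 h6
      exact ⟨rfl, by simp [ins]⟩
  | inr j =>
    have h1 : S ∪ S' = ∅ := by
      have := congrArg Prod.fst h
      simpa [madd, ins] using this
    have h2 : α + α' = Finsupp.single j 1 := by
      have := congrArg Prod.snd h
      simpa [madd, ins] using this
    obtain ⟨rfl, rfl⟩ := Finset.union_eq_empty.1 h1
    have h3 : ∀ l, α l + α' l = (Finsupp.single j 1 : Fin b →₀ ℕ) l := fun l =>
      DFunLike.congr_fun h2 l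
    have h4 := h3 j
    rw [Finsupp.single_eq_same] at h4
    rcases Nat.eq_zero_or_pos (α' j) with h5 | h5
    · left
      have h6 : α' = 0 := by
        ext l
        by_cases hl : l = j
        · rw [hl, h5]; rfl
        · have := h3 l
          rw [Finsupp.single_eq_of_ne hl] at this
          simp only [Finsupp.coe_zero, Pi.zero_apply]
          omega
      subst h6
      rw [add_zero] at h2
      subst h2
      exact ⟨by simp [ins], rfl⟩
    · right
      have h6 : α = 0 := by
        ext l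
        by_cases hl : l = j
        · rw [hl]; simp only [Finsupp.coe_zero, Pi.zero_apply]; omega
        · have := h3 l
          rw [Finsupp.single_eq_of_ne hl] at this
          simp only [Finsupp.coe_zero, Pi.zero_apply]
          omega
      subst h6
      rw [zero_add] at h2
      subst h2
      exact ⟨rfl, by simp [ins]⟩

/-- the linear coefficient of a product -/
theorem co_ins_mul_mem {v : O ⊕ Fin b} {x y : AA R O b} {C : Submodule k R}
    (h1 : co (ins v (∅, 0)) x * co (∅, 0) y ∈ C) (h2 : co (∅, 0) x * co (ins v (∅, 0)) y ∈ C) :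
    co (ins v (∅, 0)) (x * y) ∈ C := by
  classical
  have h := Pc_mul (k := k) (C := fun m => Submodule.span k {co m x})
    (C' := fun m => Submodule.span k {co m y})
    (C'' := fun m => if m = ins v (∅, 0) then C else ⊤) (by
      intro m m' hd r hr r' hr'
      by_cases hm : madd m m' = ins v (∅, 0)
      · rw [if_pos hm]
        obtain ⟨c, rfl⟩ := Submodule.mem_span_singleton.1 hr
        obtain ⟨c', rfl⟩ := Submodule.mem_span_singleton.1 hr'
        rw [smul_mul_smul_comm]
        refine C.smul_mem _ ?_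
        rcases madd_eq_ins hd hm with ⟨rfl, rfl⟩ | ⟨rfl, rfl⟩
        · exact h1
        · exact h2
      · rw [if_neg hm]
        exact Submodule.mem_top)
    (w := x) (w' := y) (fun m => Submodule.mem_span_singleton_self _)
    (fun m => Submodule.mem_span_singleton_self _)
  have h3 := h (ins v (∅, 0))
  simp only [if_true] at h3
  exact h3

/-- (M) the linear coefficient of a boundary -/
theorem co_ins_d_mem (𝒜 : ℕ → Submodule k R) [GradedAlgebra 𝒜] {δ w : O ⊕ Fin b → ℤ}
    {T : DD R O b} (hT : Gr 𝒜 δ w T) {v : O ⊕ Fin b} {w' : AA R O b}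
    (hw' : w' ∈ Ft k δ Set.univ (δ v + 1))
    (hmin : ∀ g, δ g = δ v + 1 → co (ins v (∅, 0)) (T g) ∈ AGe 𝒜 1) :
    co (ins v (∅, 0)) (T.d w') ∈ AGe 𝒜 1 := by
  have hd : T.d w' = ∑ g, T g * dd g w' := by
    unfold DD.d
    rw [LinearMap.sum_apply]
    rfl
  rw [hd, map_sum]
  refine Submodule.sum_mem _ fun g _ => ?_
  have hdd : dd g w' ∈ Pc (k := k) (Cd δ Set.univ (δ v + 1 - δ g) fun _ => ⊤) :=
    dd_mem (fun _ _ => le_rfl) hw'
  refine co_ins_mul_mem ?_ ?_
  · by_cases h0 : co (∅, 0) (dd g w') = 0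
    · rw [h0, mul_zero]
      exact Submodule.zero_mem _
    · have h1 := ((mem_Cd.1 (hdd (∅, 0))).1 h0).2
      have h2 : lin δ ((∅, 0) : Mo O b) = 0 := by unfold lin; simp
      rw [h2] at h1
      exact AGe_mul_right 𝒜 _ (hmin g (by omega))
  · by_cases h0 : co (∅, 0) (T g) = 0
    · rw [h0, zero_mul]
      exact Submodule.zero_mem _
    · obtain ⟨h1, h2⟩ := mem_Cd.1 (hT.val g (∅, 0))
      refine AGe_mul_right 𝒜 _ ?_
      have h3 : lin w ((∅, 0) : Mo O b) = 0 := by unfold lin; simp
      rw [h3, sub_zero] at h2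
      have h4 := hT.wpos g
      unfold AZ at h2
      rw [if_pos (by omega)] at h2
      exact piece_le_AGe 𝒜 (by omega) h2

end Helper28.QB
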