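import Mathlib

/-!
# Nilpotency modulo large weights

`W q` is a decreasing multiplicative filtration of a ring `M` with `W 0 = ⊤`, and `I i` are
two-sided ideals of square zero (for instance `I i = M o_i` for a normal element `o_i` with
`o_i ^ 2 = 0`). Then every power of `W 1 + ∑ I i` of large exponent is contained in `W q`.
-/

namespace Helper28.QB

variable {ι k M : Type*} [CommRing k] [Ring M] [Algebra k M]

theorem pow_le_filtration (W : ℕ → Submodule k M) (hmul : ∀ a b, W a * W b ≤ W (a + b))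
    (h0 : W 0 = ⊤) (q : ℕ) : (W 1) ^ q ≤ W q := by
  induction q with
  | zero => rw [h0]; exact le_top
  | succ q ih =>
    rw [pow_succ]
    exact (mul_le_mul' ih le_rfl).trans (hmul q 1)

theorem nilp (W : ℕ → Submodule k M) (hmul : ∀ a b, W a * W b ≤ W (a + b))
    (h0 : W 0 = ⊤) (I : ι → Submodule k M) (hl : ∀ i, ⊤ * I i ≤ I i) (hr : ∀ i, I i * ⊤ ≤ I i)
    (hsq : ∀ i, I i * I i ≤ ⊥) (S : Finset ι) (q : ℕ) :
    ∃ N : ℕ, (W 1 ⊔ S.sup I) ^ N ≤ W q := by
  classical
  have hWl : ∀ V : Submodule k M, V * W q ≤ W q := fun V =>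
    (mul_le_mul' (le_top.trans h0.ge) le_rfl).trans ((hmul 0 q).trans (le_of_eq (by rw [zero_add])))
  have hWr : ∀ V : Submodule k M, W q * V ≤ W q := fun V =>
    (mul_le_mul' le_rfl (le_top.trans h0.ge)).trans ((hmul q 0).trans (le_of_eq (by rw [add_zero])))
  induction S using Finset.induction_on with
  | empty =>
    refine ⟨q, ?_⟩
    rw [Finset.sup_empty, sup_bot_eq]
    exact pow_le_filtration W hmul h0 q
  | insert i S _ ih =>
    obtain ⟨N, hN⟩ := ih
    have hV : W 1 ⊔ (insert i S).sup I = (W 1 ⊔ S.sup I) ⊔ I i := by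
      rw [Finset.sup_insert, sup_comm (I i), sup_assoc]
    rw [hV]
    generalize W 1 ⊔ S.sup I = V at hN
    have hIV : ∀ U : Submodule k M, I i * U ≤ I i := fun U =>
      (mul_le_mul' le_rfl le_top).trans (hr i)
    have hVI : ∀ U : Submodule k M, U * I i ≤ I i := fun U =>
      (mul_le_mul' le_top le_rfl).trans (hl i)
    have h1 : ∀ n : ℕ, (V ⊔ I i) ^ n ≤ V ^ n ⊔ I i := by
      intro n
      induction n with
      | zero => rw [pow_zero, pow_zero]; exact le_sup_left
      | succ n ihn =>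
        rw [pow_succ, pow_succ]
        refine (mul_le_mul' ihn le_rfl).trans ?_
        rw [Submodule.sup_mul, Submodule.mul_sup]
        refine sup_le (sup_le le_sup_left ((hVI _).trans le_sup_right)) ?_
        exact (hIV _).trans le_sup_right
    refine ⟨N + N, ?_⟩
    rw [pow_add]
    refine (mul_le_mul' (h1 N) (h1 N)).trans ?_
    rw [Submodule.sup_mul, Submodule.mul_sup, Submodule.mul_sup]
    refine sup_le (sup_le ?_ ?_) (sup_le ?_ ?_)
    · exact (mul_le_mul' hN le_rfl).trans (hWr _)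
    · exact (mul_le_mul' hN le_rfl).trans (hWr _)
    · exact (mul_le_mul' le_rfl hN).trans (hWl _)
    · exact (hsq i).trans bot_le

/-- the form for normal elements of square zero -/
theorem nilp_of_normal (W : ℕ → Submodule k M) (hmul : ∀ a b, W a * W b ≤ W (a + b))
    (h0 : W 0 = ⊤) (o : ι → M) (hn : ∀ i c, ∃ c', o i * c = c' * o i) (hsq : ∀ i, o i * o i = 0)
    (S : Finset ι) (q : ℕ) :
    ∃ N : ℕ, ∀ z : M, ∀ b : ι → M, (z - ∑ i ∈ S, b i * o i) ∈ W 1 → z ^ N ∈ W q := by
  obtain ⟨N, hN⟩ := nilp W hmul h0 (fun i => LinearMap.range (LinearMap.mulRight k (o i)))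
    (by
      intro i
      rw [Submodule.mul_le]
      rintro m - _ ⟨c, rfl⟩
      exact ⟨m * c, by simp [mul_assoc]⟩)
    (by
      intro i
      rw [Submodule.mul_le]
      rintro _ ⟨c, rfl⟩ m -
      obtain ⟨m', hm'⟩ := hn i m
      refine ⟨c * m', ?_⟩
      simp only [LinearMap.mulRight_apply]
      rw [mul_assoc, ← hm', mul_assoc])
    (by
      intro i
      rw [Submodule.mul_le]
      rintro _ ⟨c, rfl⟩ _ ⟨e, rfl⟩
      rw [Submodule.mem_bot]
      simp only [LinearMap.mulRight_apply]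
      obtain ⟨e', he'⟩ := hn i e
      rw [mul_assoc, ← mul_assoc (o i), he', mul_assoc e', hsq, mul_zero, mul_zero]) S q
  refine ⟨N, fun z b hz => hN (Submodule.pow_mem_pow _ ?_ N)⟩
  have h1 : z = (z - ∑ i ∈ S, b i * o i) + ∑ i ∈ S, b i * o i := by abel
  rw [h1]
  refine Submodule.add_mem _ (Submodule.mem_sup_left hz) (Submodule.mem_sup_right ?_)
  refine Submodule.sum_mem _ fun i hi => ?_
  exact Finset.le_sup (f := fun i => LinearMap.range (LinearMap.mulRight k (o i))) hi
    ⟨b i, by simp⟩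

end Helper28.QB
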