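import Mathlib

/-!
# Parameters from a pole order of the Hilbert series

For a graded algebra `A` over a field `k` (grading `𝒜 : ℕ → Submodule k A`, `A` noetherian,
`𝒜 0 = k`) and a homogeneous ideal `J`: if `H (1 - X)^p g` is a polynomial for the Hilbert series
`H` of `A / J` and a polynomial `g` with natural coefficients and `g(0) ≥ 1`, then there are `p`
homogeneous elements of positive degree that cut `A / J` down to a finite-dimensional algebra.
-/

namespace Helper28.QB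

open DirectSum

variable {k A : Type*} [Field k] [CommRing A] [Algebra k A]

section comb

variable (𝒜 : ℕ → Submodule k A) [GradedAlgebra 𝒜]

/-- a homogeneous element of an ideal spanned by finitely many homogeneous elements is a
combination with homogeneous coefficients -/
theorem comb {s : Finset A} {d : A → ℕ} (hd : ∀ x ∈ s, x ∈ 𝒜 (d x)) {n : ℕ} {a : A}
    (ha : a ∈ 𝒜 n) (haI : a ∈ Ideal.span (s : Set A)) :
    ∃ c : A → A, (∀ x ∈ s, d x ≤ n → c x ∈ 𝒜 (n - d x)) ∧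
      a = ∑ x ∈ s with d x ≤ n, c x * x := by
  obtain ⟨f, -, hf⟩ := Submodule.mem_span_finset.1 haI
  refine ⟨fun x => decompose 𝒜 (f x) (n - d x), fun x hx _ => SetLike.coe_mem _, ?_⟩
  have h1 : a = ((decompose 𝒜 a n : 𝒜 n) : A) := (decompose_of_mem_same 𝒜 ha).symm
  rw [h1, ← hf, decompose_sum, DFinsupp.finsetSum_apply, AddSubmonoidClass.coe_finsetSum,
    Finset.sum_filter]
  refine Finset.sum_congr rfl fun x hx => ?_
  split_ifs with h
  · rw [smul_eq_mul, coe_decompose_mul_of_right_mem_of_le 𝒜 (hd x hx) h]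
  · rw [smul_eq_mul, coe_decompose_mul_of_right_mem_of_not_le 𝒜 (hd x hx) h]

/-- homogeneous generators -/
theorem exists_gen [IsNoetherianRing A] {I : Ideal A} (hI : I.IsHomogeneous 𝒜) :
    ∃ (s : Finset A) (d : A → ℕ), (∀ x ∈ s, x ∈ 𝒜 (d x)) ∧ I = Ideal.span (s : Set A) := by
  classical
  obtain ⟨S, hS⟩ := (Ideal.IsHomogeneous.iff_exists 𝒜 I).1 hI
  have hfg : (Submodule.span A ((fun x : SetLike.homogeneousSubmonoid 𝒜 => (x : A)) '' S)).FG :=
    IsNoetherian.noetherian _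
  obtain ⟨s, hs1, hs2⟩ := (Submodule.fg_span_iff_fg_span_finset_subset _).1 hfg
  have h1 : ∀ x : A, ∃ i : ℕ, x ∈ s → x ∈ 𝒜 i := by
    intro x
    by_cases hx : x ∈ s
    · obtain ⟨y, -, rfl⟩ := hs1 hx
      obtain ⟨i, hi⟩ := y.2
      exact ⟨i, fun _ => hi⟩
    · exact ⟨0, fun h => absurd h hx⟩
  choose d hd using h1
  exact ⟨s, d, hd, hS.trans hs2⟩

/-- the graded pieces are finite-dimensional -/
theorem finite_piece [IsNoetherianRing A] (h0 : ∀ a ∈ 𝒜 0, ∃ c : k, algebraMap k A c = a) (n : ℕ) :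
    Module.Finite k (𝒜 n) := by
  classical
  have hfg : (Submodule.span A ((𝒜 n : Submodule k A) : Set A)).FG := IsNoetherian.noetherian _
  obtain ⟨s, hs1, hs2⟩ := (Submodule.fg_span_iff_fg_span_finset_subset _).1 hfg
  have hle : 𝒜 n ≤ Submodule.span k (s : Set A) := by
    intro a ha
    have haI : a ∈ Ideal.span (s : Set A) := by
      have : a ∈ Submodule.span A ((𝒜 n : Submodule k A) : Set A) := Submodule.subset_span ha
      rwa [hs2] at this
    obtain ⟨c, hc, hac⟩ := comb 𝒜 (d := fun _ => n) (fun x hx => hs1 hx) ha haI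
    rw [hac]
    refine Submodule.sum_mem _ fun x hx => ?_
    obtain ⟨hx1, hx2⟩ := Finset.mem_filter.1 hx
    have h3 := hc x hx1 hx2
    rw [Nat.sub_self] at h3
    obtain ⟨e, he⟩ := h0 _ h3
    rw [← he, ← Algebra.smul_def]
    exact Submodule.smul_mem _ _ (Submodule.subset_span hx1)
  have hf : Module.Finite k (Submodule.span k (s : Set A)) :=
    Module.Finite.span_of_finite k s.finite_toSet
  exact Submodule.finiteDimensional_of_le hle

end comb

section sat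

variable (𝒜 : ℕ → Submodule k A) [GradedAlgebra 𝒜]

/-- homogeneous prime avoidance -/
theorem avoid (S : Finset (Ideal A)) (hP : ∀ P ∈ S, P.IsPrime)
    (hn : ∀ P ∈ S, ∃ N : ℕ, 0 < N ∧ ∃ x ∈ 𝒜 N, x ∉ P) :
    ∃ N : ℕ, 0 < N ∧ ∃ t ∈ 𝒜 N, ∀ P ∈ S, t ∉ P := by
  classical
  induction' h : S.card using Nat.strong_induction_on with m ih generalizing S
  rcases S.eq_empty_or_nonempty with rfl | ⟨P, hPS⟩
  · exact ⟨1, one_pos, 0, zero_mem _, by simp⟩
  have hQ : ∀ Q : Ideal A, ∃ (N : ℕ) (t : A), Q ∈ S →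
      0 < N ∧ t ∈ 𝒜 N ∧ ∀ P ∈ S.erase Q, t ∉ P := by
    intro Q
    by_cases hQS : Q ∈ S
    · obtain ⟨N, hN, t, ht, htP⟩ := ih (S.erase Q).card
        (h ▸ Finset.card_erase_lt_of_mem hQS) (S.erase Q)
        (fun P hP' => hP P (Finset.mem_of_mem_erase hP'))
        (fun P hP' => hn P (Finset.mem_of_mem_erase hP')) rfl
      exact ⟨N, t, fun _ => ⟨hN, ht, htP⟩⟩
    · exact ⟨0, 0, fun h => absurd h hQS⟩
  choose N t ht using hQ
  by_cases hc : ∃ Q ∈ S, t Q ∉ Q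
  · obtain ⟨Q, hQS, hQ'⟩ := hc
    refine ⟨N Q, (ht Q hQS).1, t Q, (ht Q hQS).2.1, fun P hP' => ?_⟩
    by_cases hPQ : P = Q
    · rw [hPQ]; exact hQ'
    · exact (ht Q hQS).2.2 P (Finset.mem_erase.2 ⟨hPQ, hP'⟩)
  push Not at hc
  rcases (S.erase P).eq_empty_or_nonempty with hE | hE
  · obtain ⟨M, hM, x, hx, hxP⟩ := hn P hPS
    refine ⟨M, hM, x, hx, fun Q hQS => ?_⟩
    by_cases hQP : Q = P
    · rw [hQP]; exact hxP
    · have : Q ∈ S.erase P := Finset.mem_erase.2 ⟨hQP, hQS⟩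
      rw [hE] at this
      exact absurd this (Finset.notMem_empty _)
  have hv : ∏ Q ∈ S.erase P, t Q ∈ 𝒜 (∑ Q ∈ S.erase P, N Q) :=
    SetLike.prod_mem_graded _ _ _ fun Q hQ => (ht Q (Finset.mem_of_mem_erase hQ)).2.1
  have hb : 0 < ∑ Q ∈ S.erase P, N Q :=
    Finset.sum_pos (fun Q hQ => (ht Q (Finset.mem_of_mem_erase hQ)).1) hE
  refine ⟨N P * ∑ Q ∈ S.erase P, N Q, Nat.mul_pos (ht P hPS).1 hb,
    t P ^ (∑ Q ∈ S.erase P, N Q) + (∏ Q ∈ S.erase P, t Q) ^ (N P), ?_, ?_⟩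
  · refine Submodule.add_mem _ ?_ ?_
    · have := SetLike.pow_mem_graded (∑ Q ∈ S.erase P, N Q) (ht P hPS).2.1
      rwa [smul_eq_mul, mul_comm] at this
    · have := SetLike.pow_mem_graded (N P) hv
      rwa [smul_eq_mul] at this
  · intro Q hQS hmem
    by_cases hQP : Q = P
    · subst hQP
      have h1 : t Q ^ (∑ Q' ∈ S.erase Q, N Q') ∈ Q := Ideal.pow_mem_of_mem _ (hc Q hQS) _ hb
      have h2 : (∏ Q' ∈ S.erase Q, t Q') ^ (N Q) ∈ Q := by
        have := Ideal.sub_mem _ hmem h1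
        simpa using this
      have h3 := (hP Q hQS).mem_of_pow_mem _ h2
      obtain ⟨Q', hQ', hQ''⟩ := (Ideal.IsPrime.prod_mem_iff (hp := hP Q hQS)).1 h3
      have hne : Q' ≠ Q := (Finset.mem_erase.1 hQ').1
      exact (ht Q' (Finset.mem_of_mem_erase hQ')).2.2 Q
        (Finset.mem_erase.2 ⟨hne.symm, hQS⟩) hQ''
    · have h1 : (∏ Q' ∈ S.erase P, t Q') ^ (N P) ∈ Q := by
        refine Ideal.pow_mem_of_mem _ ?_ _ (ht P hPS).1
        exact Ideal.mem_of_dvd _ (Finset.dvd_prod_of_mem t (Finset.mem_erase.2 ⟨hQP, hQS⟩))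
          (hc Q hQS)
      have h2 : t P ^ (∑ Q' ∈ S.erase P, N Q') ∈ Q := by
        have := Ideal.sub_mem _ hmem h1
        simpa using this
      exact (ht P hPS).2.2 Q (Finset.mem_erase.2 ⟨hQP, hQS⟩)
        ((hP Q hQS).mem_of_pow_mem _ h2)

/-- the saturation of an ideal with respect to the positive part -/
def sat (J : Ideal A) : Ideal A where
  carrier := {a | ∃ j0 : ℕ, ∀ j, j0 ≤ j → ∀ b ∈ 𝒜 j, b * a ∈ J}
  add_mem' := by
    rintro a b ⟨j, hj⟩ ⟨l, hl⟩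
    refine ⟨max j l, fun m hm c hc => ?_⟩
    rw [mul_add]
    exact J.add_mem (hj m (le_of_max_le_left hm) c hc) (hl m (le_of_max_le_right hm) c hc)
  zero_mem' := ⟨0, fun j _ b _ => by rw [mul_zero]; exact J.zero_mem⟩
  smul_mem' := by
    rintro c a ⟨j0, h⟩
    refine ⟨j0, fun j hj b hb => ?_⟩
    rw [smul_eq_mul, mul_left_comm]
    exact J.mul_mem_left _ (h j hj b hb)

variable {𝒜}

omit [GradedAlgebra 𝒜] in
theorem mem_sat {J : Ideal A} {a : A} :
    a ∈ sat 𝒜 J ↔ ∃ j0 : ℕ, ∀ j, j0 ≤ j → ∀ b ∈ 𝒜 j, b * a ∈ J := Iff.rfl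

omit [GradedAlgebra 𝒜] in
theorem le_sat (J : Ideal A) : J ≤ sat 𝒜 J := fun _ ha =>
  mem_sat.2 ⟨0, fun _ _ b _ => J.mul_mem_left b ha⟩

theorem sat_homog {J : Ideal A} (hJ : J.IsHomogeneous 𝒜) : (sat 𝒜 J).IsHomogeneous 𝒜 := by
  intro i a ha
  obtain ⟨j0, h⟩ := mem_sat.1 ha
  refine mem_sat.2 ⟨j0, fun j hj b hb => ?_⟩
  have h1 := hJ (j + i) (h j hj b hb)
  rwa [coe_decompose_mul_of_left_mem_of_le 𝒜 hb (Nat.le_add_right j i), Nat.add_sub_cancel_left]
    at h1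

variable [IsNoetherianRing A]

theorem sat_large {J : Ideal A} (hJ : J.IsHomogeneous 𝒜) :
    ∃ n0 : ℕ, ∀ n, n0 ≤ n → ∀ a ∈ 𝒜 n, a ∈ sat 𝒜 J → a ∈ J := by
  classical
  obtain ⟨s, d, hd, hs⟩ := exists_gen 𝒜 (sat_homog hJ)
  have h1 : ∀ x : A, ∃ j0 : ℕ, x ∈ s → ∀ j, j0 ≤ j → ∀ b ∈ 𝒜 j, b * x ∈ J := by
    intro x
    by_cases hx : x ∈ s
    · have : x ∈ sat 𝒜 J := by rw [hs]; exact Ideal.subset_span hx
      obtain ⟨j0, h⟩ := mem_sat.1 this
      exact ⟨j0, fun _ => h⟩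
    · exact ⟨0, fun h => absurd h hx⟩
  choose j0 hj0 using h1
  refine ⟨∑ x ∈ s, (j0 x + d x), fun n hn a ha has => ?_⟩
  rw [hs] at has
  obtain ⟨c, hc, hac⟩ := comb 𝒜 hd ha has
  rw [hac]
  refine J.sum_mem fun x hx => ?_
  obtain ⟨hx1, hx2⟩ := Finset.mem_filter.1 hx
  refine hj0 x hx1 (n - d x) ?_ _ (hc x hx1 hx2)
  have : j0 x + d x ≤ ∑ x ∈ s, (j0 x + d x) :=
    Finset.single_le_sum (f := fun x => j0 x + d x) (fun _ _ => Nat.zero_le _) hx1
  omega

theorem sat_of_pos {J : Ideal A} {a : A}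
    (h : ∀ N : ℕ, 0 < N → ∀ x ∈ 𝒜 N, x * a ∈ sat 𝒜 J) : a ∈ sat 𝒜 J := by
  classical
  have hfg : (Submodule.span A {x : A | ∃ N : ℕ, 0 < N ∧ x ∈ 𝒜 N}).FG :=
    IsNoetherian.noetherian _
  obtain ⟨s, hs1, hs2⟩ := (Submodule.fg_span_iff_fg_span_finset_subset _).1 hfg
  have h1 : ∀ x : A, ∃ d : ℕ, x ∈ s → 0 < d ∧ x ∈ 𝒜 d := by
    intro x
    by_cases hx : x ∈ s
    · obtain ⟨N, hN, hxN⟩ := hs1 hx
      exact ⟨N, fun _ => ⟨hN, hxN⟩⟩
    · exact ⟨0, fun h => absurd h hx⟩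
  choose d hd using h1
  have h2 : ∀ x : A, ∃ j0 : ℕ, x ∈ s → ∀ j, j0 ≤ j → ∀ b ∈ 𝒜 j, b * (x * a) ∈ J := by
    intro x
    by_cases hx : x ∈ s
    · obtain ⟨j0, h'⟩ := mem_sat.1 (h (d x) (hd x hx).1 x (hd x hx).2)
      exact ⟨j0, fun _ => h'⟩
    · exact ⟨0, fun h => absurd h hx⟩
  choose j0 hj0 using h2
  refine mem_sat.2 ⟨∑ x ∈ s, (j0 x + d x) + 1, fun j hj b hb => ?_⟩
  have hbI : b ∈ Ideal.span (s : Set A) := by
    have h3 : b ∈ Submodule.span A {x : A | ∃ N : ℕ, 0 < N ∧ x ∈ 𝒜 N} :=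
      Submodule.subset_span ⟨j, by omega, hb⟩
    rwa [hs2] at h3
  obtain ⟨c, hc, hbc⟩ := comb 𝒜 (fun x hx => (hd x hx).2) hb hbI
  rw [hbc, Finset.sum_mul]
  refine J.sum_mem fun x hx => ?_
  obtain ⟨hx1, hx2⟩ := Finset.mem_filter.1 hx
  rw [mul_assoc]
  refine hj0 x hx1 (j - d x) ?_ _ (hc x hx1 hx2)
  have : j0 x + d x ≤ ∑ x ∈ s, (j0 x + d x) :=
    Finset.single_le_sum (f := fun x => j0 x + d x) (fun _ _ => Nat.zero_le _) hx1
  omega

/-- a homogeneous element of positive degree that is a nonzerodivisor on `A / J` in large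
degrees -/
theorem exists_t {J : Ideal A} (hJ : J.IsHomogeneous 𝒜) :
    ∃ N : ℕ, 0 < N ∧ ∃ t ∈ 𝒜 N, ∃ n0 : ℕ, ∀ n, n0 ≤ n → ∀ a ∈ 𝒜 n, t * a ∈ J → a ∈ J := by
  classical
  have hfin := associatedPrimes.finite A (A ⧸ sat 𝒜 J)
  have key : ∃ N : ℕ, 0 < N ∧ ∃ t ∈ 𝒜 N, ∀ P ∈ hfin.toFinset, t ∉ P := by
    refine avoid 𝒜 hfin.toFinset (fun P hP => ?_) (fun P hP => ?_)
    · exact ((Set.Finite.mem_toFinset hfin).1 hP).isPrime
    · have h1 := (Set.Finite.mem_toFinset hfin).1 hP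
      rw [AssociatedPrimes.mem_iff, isAssociatedPrime_iff] at h1
      obtain ⟨hprime, x, hx⟩ := h1
      obtain ⟨a, rfl⟩ := Ideal.Quotient.mk_surjective x
      by_contra hcon
      push Not at hcon
      have ha : a ∈ sat 𝒜 J := by
        refine sat_of_pos fun N hN y hy => ?_
        have h2 := hcon N hN y hy
        rw [hx, Submodule.mem_colon_singleton, Submodule.mem_bot] at h2
        have h3 : (Ideal.Quotient.mk (sat 𝒜 J) (y * a)) = 0 := by
          rw [map_mul]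
          exact h2
        exact Ideal.Quotient.eq_zero_iff_mem.1 h3
      apply hprime.ne_top
      rw [Ideal.eq_top_iff_one, hx, Submodule.mem_colon_singleton, Submodule.mem_bot, one_smul]
      exact Ideal.Quotient.eq_zero_iff_mem.2 ha
  obtain ⟨N, hN, t, ht, htP⟩ := key
  obtain ⟨n0, hn0⟩ := sat_large hJ
  refine ⟨N, hN, t, ht, n0, fun n hn a ha hta => hn0 n hn a ha ?_⟩
  by_contra has
  have h4 : t ∈ ⋃ p ∈ associatedPrimes A (A ⧸ sat 𝒜 J), (p : Set A) := by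
    rw [biUnion_associatedPrimes_eq_zero_divisors]
    refine ⟨Ideal.Quotient.mk (sat 𝒜 J) a, fun h0 => has (Ideal.Quotient.eq_zero_iff_mem.1 h0), ?_⟩
    have h5 : (Ideal.Quotient.mk (sat 𝒜 J) (t * a)) = 0 :=
      Ideal.Quotient.eq_zero_iff_mem.2 (le_sat J hta)
    rw [map_mul] at h5
    exact h5
  obtain ⟨P, hP, htP'⟩ := Set.mem_iUnion₂.1 h4
  exact htP P ((Set.Finite.mem_toFinset hfin).2 hP) htP'

end sat

section hilb

variable (𝒜 : ℕ → Submodule k A)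

/-- the Hilbert function of `A / J` -/
noncomputable def hilb (J : Ideal A) (n : ℕ) : ℕ :=
  Module.finrank k (𝒜 n ⧸ (J.restrictScalars k).comap (𝒜 n).subtype)

/-- the Hilbert series of `A / J` -/
noncomputable def hs (J : Ideal A) : PowerSeries ℤ := PowerSeries.mk fun n => (hilb 𝒜 J n : ℤ)

variable {𝒜}

theorem le_of_hilb_eq_zero {J : Ideal A} {n : ℕ} [Module.Finite k (𝒜 n)] (h : hilb 𝒜 J n = 0) :
    ∀ a ∈ 𝒜 n, a ∈ J := by
  intro a ha
  have h1 : Subsingleton (𝒜 n ⧸ (J.restrictScalars k).comap (𝒜 n).subtype) :=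
    Module.finrank_zero_iff.1 h
  have h3 : (⟨a, ha⟩ : 𝒜 n) ∈ (J.restrictScalars k).comap (𝒜 n).subtype := by
    rw [← Submodule.Quotient.mk_eq_zero]
    exact Subsingleton.elim _ _
  exact h3

variable [GradedAlgebra 𝒜]

theorem finite_of_le {J : Ideal A} (hfd : ∀ n, Module.Finite k (𝒜 n)) {n0 : ℕ}
    (h : ∀ n, n0 ≤ n → ∀ a ∈ 𝒜 n, a ∈ J) : Module.Finite k (A ⧸ J) := by
  classical
  have hfg : (⨆ n ∈ Finset.range n0, 𝒜 n).FG :=
    Submodule.fg_biSup (Finset.range n0) 𝒜 fun n _ => (Submodule.fg_top _).1 (hfd n).fg_top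
  have hmap := hfg.map (Ideal.Quotient.mkₐ k J).toLinearMap
  have htop : (⨆ n ∈ Finset.range n0, 𝒜 n).map (Ideal.Quotient.mkₐ k J).toLinearMap = ⊤ := by
    rw [eq_top_iff]
    rintro x -
    obtain ⟨a, rfl⟩ := Ideal.Quotient.mk_surjective x
    have h1 : a = ∑ i ∈ (decompose 𝒜 a).support, ((decompose 𝒜 a i : 𝒜 i) : A) :=
      (sum_support_decompose 𝒜 a).symm
    rw [h1, map_sum]
    refine Submodule.sum_mem _ fun i _ => ?_
    by_cases hi : i < n0
    · refine ⟨(decompose 𝒜 a i : 𝒜 i), ?_, rfl⟩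
      exact Submodule.mem_iSup_of_mem i (Submodule.mem_iSup_of_mem (Finset.mem_range.2 hi)
        (SetLike.coe_mem _))
    · have h2 : ((decompose 𝒜 a i : 𝒜 i) : A) ∈ J := h i (not_lt.1 hi) _ (SetLike.coe_mem _)
      rw [Ideal.Quotient.eq_zero_iff_mem.2 h2]
      exact Submodule.zero_mem _
  exact ⟨htop ▸ hmap⟩

/-- one step: exactness in large degrees -/
theorem hilb_step {J : Ideal A} (hJ : J.IsHomogeneous 𝒜) (hfd : ∀ n, Module.Finite k (𝒜 n))
    {N : ℕ} {t : A} (ht : t ∈ 𝒜 N) {n : ℕ} (h : ∀ a ∈ 𝒜 n, t * a ∈ J → a ∈ J) :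
    hilb 𝒜 (J ⊔ Ideal.span {t}) (n + N) + hilb 𝒜 J n = hilb 𝒜 J (n + N) := by
  have := hfd n
  have := hfd (n + N)
  have hmul : ∀ a ∈ 𝒜 n, LinearMap.mulLeft k t a ∈ 𝒜 (n + N) := by
    intro a ha
    rw [LinearMap.mulLeft_apply, add_comm n N]
    exact SetLike.mul_mem_graded ht ha
  let JV : Submodule k (𝒜 n) := (J.restrictScalars k).comap (𝒜 n).subtype
  let JW : Submodule k (𝒜 (n + N)) := (J.restrictScalars k).comap (𝒜 (n + N)).subtype
  let JW' : Submodule k (𝒜 (n + N)) :=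
    ((J ⊔ Ideal.span {t}).restrictScalars k).comap (𝒜 (n + N)).subtype
  let m : 𝒜 n →ₗ[k] 𝒜 (n + N) := (LinearMap.mulLeft k t).restrict hmul
  let φ : 𝒜 n →ₗ[k] (𝒜 (n + N) ⧸ JW) := JW.mkQ ∘ₗ m
  have hle : JW ≤ JW' := fun w hw => Ideal.mem_sup_left hw
  let ψ : (𝒜 (n + N) ⧸ JW) →ₗ[k] (𝒜 (n + N) ⧸ JW') :=
    JW.mapQ JW' LinearMap.id (by rwa [Submodule.comap_id])
  have hker : LinearMap.ker φ = JV := by
    ext ⟨a, ha⟩
    rw [LinearMap.mem_ker]
    change JW.mkQ (m ⟨a, ha⟩) = 0 ↔ a ∈ J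
    rw [Submodule.mkQ_apply, Submodule.Quotient.mk_eq_zero]
    change t * a ∈ J ↔ a ∈ J
    exact ⟨h a ha, J.mul_mem_left t⟩
  have hψ : Function.Surjective ψ := by
    intro y
    obtain ⟨w, rfl⟩ := Submodule.mkQ_surjective _ y
    exact ⟨JW.mkQ w, by simp [ψ]⟩
  have hkerψ : LinearMap.ker ψ = LinearMap.range φ := by
    ext y
    obtain ⟨w, rfl⟩ := Submodule.mkQ_surjective _ y
    rw [LinearMap.mem_ker, LinearMap.mem_range]
    have h1 : ψ (JW.mkQ w) = JW'.mkQ w := by simp [ψ]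
    rw [h1, Submodule.mkQ_apply, Submodule.Quotient.mk_eq_zero]
    constructor
    · intro hw
      have hw' : (w : A) ∈ J ⊔ Ideal.span {t} := hw
      obtain ⟨j, hj, y, hy, hjy⟩ := Submodule.mem_sup.1 hw'
      obtain ⟨c, rfl⟩ := Ideal.mem_span_singleton'.1 hy
      have h2 : (w : A) = ((decompose 𝒜 j (n + N) : 𝒜 (n + N)) : A) +
          ((decompose 𝒜 c n : 𝒜 n) : A) * t := by
        have h3 : (w : A) = ((decompose 𝒜 (w : A) (n + N) : 𝒜 (n + N)) : A) :=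
          (decompose_of_mem_same 𝒜 w.2).symm
        rw [h3, ← hjy, decompose_add, DirectSum.add_apply, Submodule.coe_add,
          coe_decompose_mul_of_right_mem_of_le 𝒜 ht (Nat.le_add_left N n), Nat.add_sub_cancel]
      refine ⟨decompose 𝒜 c n, ?_⟩
      change JW.mkQ (m (decompose 𝒜 c n)) = JW.mkQ w
      rw [Submodule.mkQ_apply, Submodule.mkQ_apply, Submodule.Quotient.eq]
      change t * ((decompose 𝒜 c n : 𝒜 n) : A) - (w : A) ∈ J
      rw [h2, mul_comm t, sub_add_cancel_right]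
      exact J.neg_mem (hJ (n + N) hj)
    · rintro ⟨⟨a, ha⟩, hφ⟩
      change JW.mkQ (m ⟨a, ha⟩) = JW.mkQ w at hφ
      rw [Submodule.mkQ_apply, Submodule.mkQ_apply, Submodule.Quotient.eq] at hφ
      have h4 : t * a - (w : A) ∈ J := hφ
      change (w : A) ∈ J ⊔ Ideal.span {t}
      have h5 : (w : A) = -(t * a - (w : A)) + a * t := by ring
      rw [h5]
      exact Ideal.add_mem _ (Ideal.mem_sup_left (J.neg_mem h4))
        (Ideal.mem_sup_right (Ideal.mul_mem_left _ _ (Ideal.mem_span_singleton_self t)))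
  have e1 := LinearMap.finrank_range_add_finrank_ker φ
  have e2 := LinearMap.finrank_range_add_finrank_ker ψ
  have e3 := Submodule.finrank_quotient_add_finrank JV
  rw [LinearMap.range_eq_top.2 hψ, finrank_top, hkerψ] at e2
  rw [hker] at e1
  change Module.finrank k (𝒜 (n + N) ⧸ JW') + Module.finrank k (𝒜 n ⧸ JV) =
    Module.finrank k (𝒜 (n + N) ⧸ JW)
  omega

end hilb

section main

open PowerSeries

variable (𝒜 : ℕ → Submodule k A) [GradedAlgebra 𝒜]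

/-- **Parameters from a pole order.** -/
theorem exists_params [IsNoetherianRing A] (h0 : ∀ a ∈ 𝒜 0, ∃ c : k, algebraMap k A c = a)
    (g : Polynomial ℕ) (hg : 1 ≤ g.coeff 0) (p : ℕ) :
    ∀ (J : Ideal A), J.IsHomogeneous 𝒜 → ∀ h : Polynomial ℤ,
      hs 𝒜 J * (1 - X) ^ p * ((g.map (Nat.castRingHom ℤ) : Polynomial ℤ) : ℤ⟦X⟧) = (h : ℤ⟦X⟧) →
      ∃ (r : Fin p → A) (e : Fin p → ℕ), (∀ i, 0 < e i ∧ r i ∈ 𝒜 (e i)) ∧
        Module.Finite k (A ⧸ (J ⊔ Ideal.span (Set.range r))) := by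
  have hfd := finite_piece 𝒜 h0
  induction p with
  | zero =>
    intro J hJ h hh
    refine ⟨Fin.elim0, Fin.elim0, fun i => i.elim0, ?_⟩
    have hJ' : J ⊔ Ideal.span (Set.range (Fin.elim0 : Fin 0 → A)) = J := by
      rw [Set.range_eq_empty, Ideal.span_empty, sup_bot_eq]
    rw [hJ']
    refine finite_of_le (n0 := h.natDegree + 1) hfd fun n hn => ?_
    have := hfd n
    refine le_of_hilb_eq_zero ?_
    rw [pow_zero, mul_one] at hh
    have h1 := congrArg (PowerSeries.coeff n) hh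
    rw [PowerSeries.coeff_mul, Polynomial.coeff_coe, Polynomial.coeff_eq_zero_of_natDegree_lt
      (by omega)] at h1
    have h2 : ∀ x ∈ Finset.HasAntidiagonal.antidiagonal n, 0 ≤ PowerSeries.coeff x.1 (hs 𝒜 J) *
        PowerSeries.coeff x.2 ((g.map (Nat.castRingHom ℤ) : Polynomial ℤ) : ℤ⟦X⟧) := by
      intro x _
      rw [hs, PowerSeries.coeff_mk, Polynomial.coeff_coe, Polynomial.coeff_map]
      exact mul_nonneg (Int.natCast_nonneg _) (Int.natCast_nonneg _)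
    have h3 := (Finset.sum_eq_zero_iff_of_nonneg h2).1 h1 (n, 0)
      (Finset.HasAntidiagonal.mem_antidiagonal.2 (add_zero n))
    rw [hs, PowerSeries.coeff_mk, Polynomial.coeff_coe, Polynomial.coeff_map] at h3
    rcases mul_eq_zero.1 h3 with h4 | h4
    · exact_mod_cast h4
    · exfalso
      have h5 : ((g.coeff 0 : ℕ) : ℤ) = 0 := h4
      omega
  | succ p ih =>
    intro J hJ h hh
    obtain ⟨N, hN, t, ht, n0, hn0⟩ := exists_t hJ
    have hJ'' : (J ⊔ Ideal.span {t}).IsHomogeneous 𝒜 := by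
      refine hJ.sup (Ideal.homogeneous_span 𝒜 _ ?_)
      intro x hx
      rw [Set.mem_singleton_iff.1 hx]
      exact ⟨N, ht⟩
    obtain ⟨u, hu⟩ : ∃ u : Polynomial ℤ,
        hs 𝒜 (J ⊔ Ideal.span {t}) = hs 𝒜 J * (1 - X ^ N) + (u : ℤ⟦X⟧) := by
      refine ⟨PowerSeries.trunc (n0 + N) (hs 𝒜 (J ⊔ Ideal.span {t}) - hs 𝒜 J * (1 - X ^ N)), ?_⟩
      ext m
      rw [map_add, Polynomial.coeff_coe, PowerSeries.coeff_trunc]
      split_ifs with hm
      · rw [map_sub]; ring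
      · rw [add_zero, mul_sub, mul_one, map_sub, PowerSeries.coeff_mul_X_pow', if_pos (by omega)]
        simp only [hs, PowerSeries.coeff_mk]
        obtain ⟨n, rfl⟩ : ∃ n, m = n + N := ⟨m - N, by omega⟩
        rw [Nat.add_sub_cancel]
        have := hilb_step hJ hfd ht (n := n) (hn0 n (by omega))
        omega
    obtain ⟨r, e, hre, hfin⟩ := ih (J ⊔ Ideal.span {t}) hJ''
      (h * (∑ i ∈ Finset.range N, Polynomial.X ^ i) +
        u * (1 - Polynomial.X) ^ p * g.map (Nat.castRingHom ℤ)) (by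
      rw [hu]
      have hgeom : (1 - X ^ N : ℤ⟦X⟧) = (1 - X) * ∑ i ∈ Finset.range N, X ^ i :=
        (mul_neg_geom_sum X N).symm
      have hcast : (((h * (∑ i ∈ Finset.range N, Polynomial.X ^ i) +
          u * (1 - Polynomial.X) ^ p * g.map (Nat.castRingHom ℤ) : Polynomial ℤ)) : ℤ⟦X⟧) =
          (h : ℤ⟦X⟧) * (∑ i ∈ Finset.range N, X ^ i) +
          (u : ℤ⟦X⟧) * (1 - X) ^ p * ((g.map (Nat.castRingHom ℤ) : Polynomial ℤ) : ℤ⟦X⟧) := by
        have := map_sum (Polynomial.coeToPowerSeries.ringHom (R := ℤ))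
          (fun i => (Polynomial.X : Polynomial ℤ) ^ i) (Finset.range N)
        simp only [Polynomial.coeToPowerSeries.ringHom_apply, Polynomial.coe_pow,
          Polynomial.coe_X] at this
        push_cast
        rw [this]
      rw [hcast, ← hh, hgeom]
      ring)
    refine ⟨Fin.cons t r, Fin.cons N e, fun i => ?_, ?_⟩
    · refine Fin.cases ?_ (fun j => ?_) i
      · exact ⟨hN, ht⟩
      · exact hre j
    · have : J ⊔ Ideal.span (Set.range (Fin.cons t r : Fin (p + 1) → A)) =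
          J ⊔ Ideal.span {t} ⊔ Ideal.span (Set.range r) := by
        rw [Fin.range_cons, Ideal.span_insert, sup_assoc]
      rw [this]
      exact hfin

end main

end Helper28.QB
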