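import Mathlib
import Pool.Agent.Helper28.QB.Hil
import Pool.Agent.Helper67.QB.Poles

/-!
PROJECT QB. Leaf (θ): the Hilbert series of a graded Cohen-Macaulay algebra.
-/

set_option autoImplicit false

namespace Helper28.QB

open DirectSum PowerSeries

/-- the elementwise form of a regular sequence -/
theorem reg_of_isWeaklyRegular {A : Type*} [CommRing A] {D : ℕ} {θ : Fin D → A}
    (h : RingTheory.Sequence.IsWeaklyRegular A (List.ofFn θ)) (j : Fin D) (r : A)
    (hr : θ j * r ∈ Ideal.span (θ '' {i | i < j})) : r ∈ Ideal.span (θ '' {i | i < j}) := by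
  have hI : (Ideal.ofList ((List.ofFn θ).take (j : ℕ)) • ⊤ : Ideal A) =
      Ideal.span (θ '' {i | i < j}) := by
    rw [smul_eq_mul, Ideal.mul_top]
    unfold Ideal.ofList
    congr 1
    ext x
    simp only [Set.mem_ofPred_eq, Set.mem_image]
    constructor
    · intro hx
      obtain ⟨i, hi, rfl⟩ := List.mem_iff_getElem.1 hx
      have hi' : i < (j : ℕ) := by
        have := hi
        rw [List.length_take] at this
        omega
      have hjD := j.2
      refine ⟨⟨i, by omega⟩, hi', ?_⟩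
      rw [List.getElem_take, List.getElem_ofFn]
    · rintro ⟨i, hi, rfl⟩
      have hi' : (i : ℕ) < (j : ℕ) := hi
      rw [List.mem_iff_getElem]
      refine ⟨i, ?_, ?_⟩
      · rw [List.length_take, List.length_ofFn]
        have := j.2
        omega
      · rw [List.getElem_take, List.getElem_ofFn]
  have hj : (j : ℕ) < (List.ofFn θ).length := by
    rw [List.length_ofFn]; exact j.2
  have h1 := h.regular_mod_prev (j : ℕ) hj
  rw [List.getElem_ofFn] at h1
  rw [← hI]
  rw [← hI] at hr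
  have h2 : θ j • (Submodule.Quotient.mk r :
      A ⧸ (Ideal.ofList ((List.ofFn θ).take (j : ℕ)) • ⊤ : Submodule A A)) =
      θ j • (0 : A ⧸ (Ideal.ofList ((List.ofFn θ).take (j : ℕ)) • ⊤ : Submodule A A)) := by
    rw [smul_zero, ← Submodule.Quotient.mk_smul, Submodule.Quotient.mk_eq_zero]
    exact hr
  exact (Submodule.Quotient.mk_eq_zero _).1 (h1 h2)

variable {k A : Type*} [Field k] [CommRing A] [Algebra k A]

section

variable {𝒜 : ℕ → Submodule k A} [GradedAlgebra 𝒜]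

/-- a finite-dimensional homogeneous quotient vanishes in large degrees -/
theorem large_of_finite {J : Ideal A} (hJ : J.IsHomogeneous 𝒜) [Module.Finite k (A ⧸ J)] :
    ∃ n0 : ℕ, ∀ n, n0 ≤ n → ∀ a ∈ 𝒜 n, a ∈ J := by
  let V : ℕ → Submodule k (A ⧸ J) := fun n =>
    (⨆ m, ⨆ (_ : n ≤ m), 𝒜 m).map (Ideal.Quotient.mkₐ k J).toLinearMap
  have hV : ∀ {n m : ℕ}, n ≤ m → V m ≤ V n := fun {n m} hnm =>
    Submodule.map_mono (iSup_le fun l => iSup_le fun hl =>
      le_iSup_of_le l (le_iSup_of_le (hnm.trans hl) le_rfl))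
  obtain ⟨n0, hn0⟩ := IsArtinian.monotone_stabilizes
    (⟨fun n => OrderDual.toDual (V n), fun _ _ h => hV h⟩ :
      ℕ →o (Submodule k (A ⧸ J))ᵒᵈ)
  refine ⟨n0, fun n hn a ha => ?_⟩
  have h1 : V n = V (n + 1) := by
    have e1 : V n0 = V n := hn0 n hn
    have e2 : V n0 = V (n + 1) := hn0 (n + 1) (by omega)
    rw [← e1, e2]
  have h2 : (Ideal.Quotient.mkₐ k J).toLinearMap a ∈ V n :=
    ⟨a, Submodule.mem_iSup_of_mem n (Submodule.mem_iSup_of_mem le_rfl ha), rfl⟩
  rw [h1] at h2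
  obtain ⟨b, hb, hba⟩ := h2
  have h3 : b - a ∈ J := Ideal.Quotient.eq.1 hba
  have h4 : (⨆ m, ⨆ (_ : n + 1 ≤ m), 𝒜 m) ≤ LinearMap.ker (GradedAlgebra.proj 𝒜 n) := by
    refine iSup_le fun m => iSup_le fun hm c hc => ?_
    rw [LinearMap.mem_ker, GradedAlgebra.proj_apply, decompose_of_mem_ne 𝒜 hc]
    omega
  have h5 : ((decompose 𝒜 b n : 𝒜 n) : A) = 0 := by
    have := h4 hb
    rwa [LinearMap.mem_ker, GradedAlgebra.proj_apply] at this
  have h6 := hJ n h3
  rw [decompose_sub, DirectSum.sub_apply, AddSubgroupClass.coe_sub, h5,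
    decompose_of_mem_same 𝒜 ha, zero_sub] at h6
  exact (J.neg_mem_iff).1 h6

/-- in degrees below the degree of `t` nothing changes -/
theorem hilb_small {J : Ideal A} (hJ : J.IsHomogeneous 𝒜) {N : ℕ} {t : A} (ht : t ∈ 𝒜 N)
    {m : ℕ} (hm : m < N) : hilb 𝒜 (J ⊔ Ideal.span {t}) m = hilb 𝒜 J m := by
  have h : ((J ⊔ Ideal.span {t}).restrictScalars k).comap (𝒜 m).subtype =
      (J.restrictScalars k).comap (𝒜 m).subtype := by
    apply le_antisymm
    · intro w hw
      have hw' : (w : A) ∈ J ⊔ Ideal.span {t} := hw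
      obtain ⟨j, hj, y, hy, hjy⟩ := Submodule.mem_sup.1 hw'
      obtain ⟨c, rfl⟩ := Ideal.mem_span_singleton'.1 hy
      have h3 : (w : A) = ((decompose 𝒜 j m : 𝒜 m) : A) := by
        have h3 : (w : A) = ((decompose 𝒜 (w : A) m : 𝒜 m) : A) :=
          (decompose_of_mem_same 𝒜 w.2).symm
        rw [h3, ← hjy, decompose_add, DirectSum.add_apply, Submodule.coe_add,
          coe_decompose_mul_of_right_mem_of_not_le 𝒜 ht (by omega), add_zero]
      change (w : A) ∈ J
      rw [h3]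
      exact hJ m hj
    · intro w hw
      exact Ideal.mem_sup_left hw
  unfold hilb
  rw [h]

/-- the series after dividing by a nonzerodivisor -/
theorem hs_step {J : Ideal A} (hJ : J.IsHomogeneous 𝒜) (hfd : ∀ n, Module.Finite k (𝒜 n))
    {N : ℕ} {t : A} (ht : t ∈ 𝒜 N) (h : ∀ a, t * a ∈ J → a ∈ J) :
    hs 𝒜 (J ⊔ Ideal.span {t}) = hs 𝒜 J * (1 - X ^ N) := by
  ext m
  rw [mul_sub, mul_one, map_sub, PowerSeries.coeff_mul_X_pow']
  simp only [hs, PowerSeries.coeff_mk]
  split_ifs with hm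
  · obtain ⟨n, rfl⟩ : ∃ n, m = n + N := ⟨m - N, by omega⟩
    rw [Nat.add_sub_cancel]
    have := hilb_step hJ hfd ht (n := n) (fun a _ => h a)
    omega
  · rw [hilb_small hJ ht (by omega), sub_zero]

end

variable (𝒜 : ℕ → Submodule k A) [GradedAlgebra 𝒜]

omit [GradedAlgebra 𝒜] in
theorem hs_bot (hfd : ∀ n, Module.Finite k (𝒜 n)) :
    hs 𝒜 (⊥ : Ideal A) = PowerSeries.mk fun n => (Module.finrank k (𝒜 n) : ℤ) := by
  rw [hs_eq 𝒜 ⊥ hfd]
  ext n
  simp only [PowerSeries.coeff_mk]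
  have : ((⊥ : Ideal A).restrictScalars k ⊓ 𝒜 n : Submodule k A) = ⊥ := by
    rw [Submodule.restrictScalars_bot, bot_inf_eq]
  rw [this, finrank_bot]
  simp

/-- **Leaf (θ).** -/
theorem theta_series [IsNoetherianRing A] (h0 : ∀ a ∈ 𝒜 0, ∃ c : k, algebraMap k A c = a)
    {D : ℕ} (θ : Fin D → A) (e : Fin D → ℕ) (hθ : ∀ j, 0 < e j ∧ θ j ∈ 𝒜 (e j))
    (hreg : RingTheory.Sequence.IsRegular A (List.ofFn θ))
    (hfin : Module.Finite k (A ⧸ Ideal.span (Set.range θ))) :
    ∃ f : Polynomial ℤ, (PowerSeries.mk fun p => (Module.finrank k (𝒜 p) : ℤ)) *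
      Pool.Agent.Helper67.QB.ps e = (f : ℤ⟦X⟧) := by
  classical
  have hfd := finite_piece 𝒜 h0
  let J : ℕ → Ideal A := fun m => Ideal.span (θ '' {i | (i : ℕ) < m})
  have hJh : ∀ m, (J m).IsHomogeneous 𝒜 := by
    intro m
    refine Ideal.homogeneous_span 𝒜 _ ?_
    rintro _ ⟨i, _, rfl⟩
    exact ⟨e i, (hθ i).2⟩
  have hJ0 : J 0 = ⊥ := by
    simp [J]
  have hJs : ∀ m (hm : m < D), J (m + 1) = J m ⊔ Ideal.span {θ ⟨m, hm⟩} := by
    intro m hm
    change Ideal.span _ = Ideal.span _ ⊔ Ideal.span _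
    rw [← Ideal.span_union]
    congr 1
    ext x
    simp only [Set.mem_image, Set.mem_ofPred_eq, Set.mem_union, Set.mem_singleton_iff]
    constructor
    · rintro ⟨i, hi, rfl⟩
      rcases Nat.lt_succ_iff_lt_or_eq.1 hi with h | h
      · exact Or.inl ⟨i, h, rfl⟩
      · right
        congr 1
        exact Fin.ext h
    · rintro (⟨i, hi, rfl⟩ | rfl)
      · exact ⟨i, by omega, rfl⟩
      · exact ⟨⟨m, hm⟩, by simp, rfl⟩
  have hser : ∀ m, m ≤ D → hs 𝒜 (J m) = hs 𝒜 (⊥ : Ideal A) *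
      ∏ i ∈ Finset.univ.filter (fun i : Fin D => (i : ℕ) < m), (1 - X ^ e i) := by
    intro m
    induction m with
    | zero =>
      intro _
      rw [hJ0]
      simp
    | succ m ih =>
      intro hm
      have hm' : m < D := by omega
      have hstep := hs_step (hJh m) hfd (t := θ ⟨m, hm'⟩) (hθ ⟨m, hm'⟩).2 (fun a ha =>
        reg_of_isWeaklyRegular hreg.toIsWeaklyRegular ⟨m, hm'⟩ a ha)
      rw [hJs m hm', hstep, ih (by omega), mul_assoc]
      congr 1
      have hf : Finset.univ.filter (fun i : Fin D => (i : ℕ) < m + 1) =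
          insert (⟨m, hm'⟩ : Fin D) (Finset.univ.filter (fun i : Fin D => (i : ℕ) < m)) := by
        ext i
        simp only [Finset.mem_filter, Finset.mem_univ, true_and, Finset.mem_insert, Fin.ext_iff]
        omega
      rw [hf, Finset.prod_insert (by simp), mul_comm]
  have hD : J D = Ideal.span (Set.range θ) := by
    change Ideal.span _ = _
    congr 1
    ext x
    simp only [Set.mem_image, Set.mem_ofPred_eq, Set.mem_range]
    exact ⟨fun ⟨i, _, h⟩ => ⟨i, h⟩, fun ⟨i, h⟩ => ⟨i, i.2, h⟩⟩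
  have hfin' : Module.Finite k (A ⧸ J D) := by rw [hD]; exact hfin
  obtain ⟨n0, hn0⟩ := large_of_finite (hJh D)
  have hpoly : hs 𝒜 (J D) = ((PowerSeries.trunc n0 (hs 𝒜 (J D)) : Polynomial ℤ) : ℤ⟦X⟧) := by
    ext n
    rw [Polynomial.coeff_coe, PowerSeries.coeff_trunc]
    split_ifs with hn
    · rfl
    · rw [hs, PowerSeries.coeff_mk]
      have h1 : ((J D).restrictScalars k).comap (𝒜 n).subtype = ⊤ := by
        rw [eq_top_iff]
        rintro ⟨a, ha⟩ -
        exact hn0 n (by omega) a ha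
      have h2 : hilb 𝒜 (J D) n = 0 := by
        unfold hilb
        rw [h1]
        have : Subsingleton (𝒜 n ⧸ (⊤ : Submodule k (𝒜 n))) :=
          Submodule.Quotient.subsingleton_iff.2 rfl
        exact Module.finrank_zero_of_subsingleton
      rw [h2]
      rfl
  refine ⟨PowerSeries.trunc n0 (hs 𝒜 (J D)), ?_⟩
  rw [← hpoly, hser D le_rfl, hs_bot 𝒜 hfd, Pool.Agent.Helper67.QB.ps_eq]
  congr 1
  refine (Finset.prod_congr ?_ fun _ _ => rfl).symm
  ext i
  simp

end Helper28.QB
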